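import Pool.Agent.helper20.FX.Spec

set_option autoImplicit false

namespace Pool.Agent.FXM

open Finset

theorem GLG : GLG_stmt := by
  intro ε hε
  have h2 : 0 < Real.log 2 := Real.log_pos one_lt_two
  refine ⟨1 + 1 / (ε * Real.log 2), by positivity, fun x hx => ?_⟩
  have h1 : 1 ≤ x ^ ε := Real.one_le_rpow hx hε.le
  have h3 : Real.log x ≤ x ^ ε / ε := Real.log_le_rpow_div (by linarith) hε
  have h4 : Real.logb 2 x ≤ 1 / (ε * Real.log 2) * x ^ ε := by
    rw [Real.logb, div_le_iff₀ h2]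
    refine h3.trans (le_of_eq ?_)
    field_simp
  calc 1 + Real.logb 2 x ≤ x ^ ε + 1 / (ε * Real.log 2) * x ^ ε := add_le_add h1 h4
    _ = _ := by ring

end Pool.Agent.FXM
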