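import Pool.Agent.helper20.FX.Spec

set_option autoImplicit false

namespace Pool.Agent.FXM

open Finset

theorem PRM_succ (n : ℕ) : Pr (n + 1) = Pr n * (2 ^ (n + 1) - 1) := Finset.prod_range_succ _ _

theorem PRM_zero : Pr 0 = 1 := Finset.prod_range_zero _

theorem PRM_split (a b : ℕ) : 2 ^ (a + b) - 1 = (2 ^ a - 1) + 2 ^ a * (2 ^ b - 1) := by
  obtain ⟨x, hx⟩ : ∃ x, 2 ^ a = x + 1 := ⟨2 ^ a - 1, (Nat.sub_add_cancel Nat.one_le_two_pow).symm⟩
  obtain ⟨y, hy⟩ : ∃ y, 2 ^ b = y + 1 := ⟨2 ^ b - 1, (Nat.sub_add_cancel Nat.one_le_two_pow).symm⟩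
  rw [pow_add, hx, hy, Nat.add_sub_cancel, Nat.add_sub_cancel]
  have h : (x + 1) * (y + 1) = x + (x + 1) * y + 1 := by ring
  rw [h, Nat.add_sub_cancel]

theorem PRM_key (s : ℕ) : ∀ a b : ℕ, a + b = s → Pr a * Pr b ∣ Pr s := by
  induction s with
  | zero =>
    intro a b h
    obtain rfl : a = 0 := by omega
    obtain rfl : b = 0 := by omega
    rw [PRM_zero, one_mul]
  | succ s ih =>
    intro a b h
    rcases a with _ | a
    · obtain rfl : b = s + 1 := by omega
      rw [PRM_zero, one_mul]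
    rcases b with _ | b
    · obtain rfl : a = s := by omega
      rw [PRM_zero, mul_one]
    have h1 : Pr a * Pr (b + 1) ∣ Pr s := ih a (b + 1) (by omega)
    have h2 : Pr (a + 1) * Pr b ∣ Pr s := ih (a + 1) b (by omega)
    have h3 : s + 1 = (a + 1) + (b + 1) := by omega
    rw [PRM_succ s, h3, PRM_split, mul_add]
    apply dvd_add
    · have h4 : Pr (a + 1) * Pr (b + 1) = Pr a * Pr (b + 1) * (2 ^ (a + 1) - 1) := by
        rw [PRM_succ a]
        ring
      rw [h4]
      exact mul_dvd_mul_right h1 _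
    · have h4 : Pr (a + 1) * Pr (b + 1) = Pr (a + 1) * Pr b * (2 ^ (b + 1) - 1) := by
        rw [PRM_succ b]
        ring
      rw [h4]
      exact mul_dvd_mul h2 (Dvd.intro_left _ rfl)

theorem PRM : PRM_stmt := fun a b => PRM_key (a + b) a b rfl

end Pool.Agent.FXM
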