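import Pool.Agent.helper20.FX.Spec

set_option autoImplicit false

namespace Pool.Agent.FXM

open Finset

/-- the parity part -/
theorem WIN_ne (k : ℕ) (hk : Odd k) (p : ℕ) (hp : Odd p) (U : Finset ℕ)
    (A P : ℕ → ℤ) (s q r : ℕ → ℕ) (hr : ∀ n ∈ U, 1 ≤ r n)
    (hA : ∑ n ∈ U, A n * P n = (p : ℤ)) :
    ∑ n ∈ U, A n * (k : ℤ) ^ s n * ((k : ℤ) ^ q n + (-1) ^ q n * 2 ^ r n) * P n ≠ 0 := by
  intro h0
  have hk' : Odd (k : ℤ) := by exact_mod_cast hk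
  have h1 : (p : ℤ) = ∑ n ∈ U,
      A n * (1 - (k : ℤ) ^ s n * ((k : ℤ) ^ q n + (-1) ^ q n * 2 ^ r n)) * P n := by
    rw [← hA, ← sub_zero (∑ n ∈ U, A n * P n), ← h0, ← Finset.sum_sub_distrib]
    refine Finset.sum_congr rfl fun n _ => ?_
    ring
  have h2 : Even (∑ n ∈ U,
      A n * (1 - (k : ℤ) ^ s n * ((k : ℤ) ^ q n + (-1) ^ q n * 2 ^ r n)) * P n) := by
    rw [even_iff_two_dvd]
    refine Finset.dvd_sum fun n hn => ?_
    have h3 : Even ((2 : ℤ) ^ r n) := by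
      refine Even.pow_of_ne_zero (by decide) ?_
      have := hr n hn
      omega
    have h4 : Odd ((k : ℤ) ^ q n + (-1) ^ q n * 2 ^ r n) := hk'.pow.add_even (h3.mul_left _)
    have h5 : Odd ((k : ℤ) ^ s n * ((k : ℤ) ^ q n + (-1) ^ q n * 2 ^ r n)) := hk'.pow.mul h4
    have h6 : Even (1 - (k : ℤ) ^ s n * ((k : ℤ) ^ q n + (-1) ^ q n * 2 ^ r n)) :=
      odd_one.sub_odd h5
    exact ((h6.mul_left (A n)).mul_right (P n)).two_dvd
  rw [← h1] at h2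
  have h3 : Even p := by exact_mod_cast h2
  exact (Nat.not_even_iff_odd.2 hp) h3

theorem WIN (hLI : LI_stmt) (hREL : REL_stmt) (hPRB : PRB_stmt) : WIN_stmt := by
  intro k M a d U hk hk3 ha hU hUa hdvd hr hi hii
  obtain ⟨A, hA1, hA2⟩ := hLI a d U hU hUa
  have hp1 : Odd (Pr d) := (hPRB d).1
  set Q : ℕ := M / a with hQ
  set D : ℕ → ℤ := fun n => (k : ℤ) * 2 ^ n + 1 with hD
  set e : ℕ → ℤ := fun n => (k : ℤ) ^ (M / n) + (-1) ^ (M / n) * 2 ^ (M % n) with he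
  set P : ℤ := ∏ n ∈ U, D n with hP
  set Pn : ℕ → ℤ := fun n => ∏ j ∈ U.erase n, D j with hPn
  have hDpos : ∀ n, 0 < D n := by
    intro n
    simp only [hD]
    positivity
  have hPpos : 0 < P := Finset.prod_pos fun n _ => hDpos n
  have hPnpos : ∀ n, 0 < Pn n := fun n => Finset.prod_pos fun j _ => hDpos j
  have hmul : ∀ n ∈ U, D n * Pn n = P := fun n hn => Finset.mul_prod_erase U D hn
  have hn1 : ∀ n ∈ U, 1 ≤ n := fun n hn => ha.trans (hUa n hn).1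
  have hf : ∀ n ∈ U, D n * (e n / D n) = e n := by
    intro n hn
    exact Int.mul_ediv_cancel' (hREL k M n hk hk3 (hn1 n hn) (hdvd n hn)).2.1
  have hAP : ∑ n ∈ U, A n * Pn n = (Pr d : ℤ) := hA2 k
  have hqQ : ∀ n ∈ U, M / n ≤ Q := fun n hn => Nat.div_le_div_left (hUa n hn).1 ha
  set Z : ℤ := ∑ n ∈ U, A n * (k : ℤ) ^ (Q - M / n) * (e n / D n) with hZ
  have h1 : Z * P = ∑ n ∈ U, A n * (k : ℤ) ^ (Q - M / n) * e n * Pn n := by
    rw [hZ, Finset.sum_mul]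
    refine Finset.sum_congr rfl fun n hn => ?_
    rw [← hmul n hn]
    calc A n * (k : ℤ) ^ (Q - M / n) * (e n / D n) * (D n * Pn n)
        = A n * (k : ℤ) ^ (Q - M / n) * (D n * (e n / D n)) * Pn n := by ring
      _ = _ := by rw [hf n hn]
  have hZ0 : Z ≠ 0 := by
    intro h0
    rw [h0, zero_mul] at h1
    exact WIN_ne k hk (Pr d) hp1 U A Pn (fun n => Q - M / n) (fun n => M / n) (fun n => M % n) hr hAP
      h1.symm
  set R : ℤ := ∑ n ∈ U, A n * (k : ℤ) ^ (Q - M / n) * ((-1) ^ (M / n) * 2 ^ (M % n)) * Pn n with hR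
  have h2 : Z * P = (k : ℤ) ^ Q * (Pr d : ℤ) + R := by
    rw [h1, ← hAP, hR, Finset.mul_sum, ← Finset.sum_add_distrib]
    refine Finset.sum_congr rfl fun n hn => ?_
    have h3 : (k : ℤ) ^ Q = (k : ℤ) ^ (Q - M / n) * (k : ℤ) ^ (M / n) := by
      rw [← pow_add, Nat.sub_add_cancel (hqQ n hn)]
    rw [h3]
    simp only [he]
    ring
  set c : ℕ := U.card with hc
  have hcpos : (0 : ℤ) < c := by exact_mod_cast Finset.card_pos.2 hU
  set w : ℕ → ℤ := fun n => 2 * |A n| * (k : ℤ) ^ (Q - M / n) * 2 ^ (M % n) with hw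
  have hwn : ∀ n ∈ U, (c : ℤ) * (w n * Pn n) < P := by
    intro n hn
    have h3 : (2 * c * (2 ^ c * Pr d) * k ^ (Q - M / n) * 2 ^ (M % n) : ℤ) < D n := by
      have := hii n hn
      simp only [hD]
      exact_mod_cast this
    have h4 : (c : ℤ) * w n ≤ (2 * c * (2 ^ c * Pr d) * k ^ (Q - M / n) * 2 ^ (M % n) : ℤ) := by
      have h5 : (0 : ℤ) ≤ 2 * c * ((k : ℤ) ^ (Q - M / n) * 2 ^ (M % n)) := by positivity
      have h6 := mul_le_mul_of_nonneg_left (hA1 n hn) h5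
      calc (c : ℤ) * w n = 2 * c * ((k : ℤ) ^ (Q - M / n) * 2 ^ (M % n)) * |A n| := by
            simp only [hw]
            ring
        _ ≤ 2 * c * ((k : ℤ) ^ (Q - M / n) * 2 ^ (M % n)) * (2 ^ c * (Pr d : ℤ)) := h6
        _ = _ := by ring
    calc (c : ℤ) * (w n * Pn n) = ((c : ℤ) * w n) * Pn n := by ring
      _ < D n * Pn n := mul_lt_mul_of_pos_right (lt_of_le_of_lt h4 h3) (hPnpos n)
      _ = P := hmul n hn
  have hsum : ∑ n ∈ U, w n * Pn n < P := by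
    have h3 : ∑ n ∈ U, (c : ℤ) * (w n * Pn n) < ∑ _n ∈ U, P :=
      Finset.sum_lt_sum_of_nonempty hU hwn
    rw [← Finset.mul_sum, Finset.sum_const, nsmul_eq_mul] at h3
    exact lt_of_mul_lt_mul_left h3 hcpos.le
  have hRle : 2 * |R| ≤ ∑ n ∈ U, w n * Pn n := by
    have h3 : |R| ≤ ∑ n ∈ U, |A n| * (k : ℤ) ^ (Q - M / n) * 2 ^ (M % n) * Pn n := by
      rw [hR]
      refine (Finset.abs_sum_le_sum_abs _ _).trans (Finset.sum_le_sum fun n _ => ?_)
      rw [abs_mul, abs_mul, abs_mul, abs_mul, abs_pow, abs_pow, abs_pow, abs_of_pos (hPnpos n),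
        abs_neg, abs_one, one_pow, one_mul, Nat.abs_cast, Nat.abs_ofNat]
    calc 2 * |R| ≤ 2 * ∑ n ∈ U, |A n| * (k : ℤ) ^ (Q - M / n) * 2 ^ (M % n) * Pn n := by linarith
      _ = ∑ n ∈ U, w n * Pn n := by
          rw [Finset.mul_sum]
          refine Finset.sum_congr rfl fun n _ => ?_
          simp only [hw]
          ring
  have hiZ : 2 * ((k : ℤ) ^ Q * (Pr d : ℤ)) < P := by
    have h3 : (2 * Pr d * k ^ Q : ℤ) < ∏ n ∈ U, ((k : ℤ) * 2 ^ n + 1) := by exact_mod_cast hi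
    calc 2 * ((k : ℤ) ^ Q * (Pr d : ℤ)) = 2 * Pr d * k ^ Q := by ring
      _ < _ := h3
  have hfin : 2 * |Z| * P < 2 * P := by
    calc 2 * |Z| * P = 2 * |Z * P| := by rw [abs_mul, abs_of_pos hPpos]; ring
      _ = 2 * |(k : ℤ) ^ Q * (Pr d : ℤ) + R| := by rw [h2]
      _ ≤ 2 * (|(k : ℤ) ^ Q * (Pr d : ℤ)| + |R|) := by
          have := abs_add_le ((k : ℤ) ^ Q * (Pr d : ℤ)) R
          linarith
      _ = 2 * ((k : ℤ) ^ Q * (Pr d : ℤ)) + 2 * |R| := by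
          rw [abs_of_nonneg (by positivity)]
          ring
      _ < 2 * P := by linarith
  have h5 : 2 * |Z| < 2 := lt_of_mul_lt_mul_right hfin hPpos.le
  have h6 : 1 ≤ |Z| := Int.one_le_abs hZ0
  omega

end Pool.Agent.FXM
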